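import Mathlib

namespace Pool.Agent.Results.MP_d7d923_pr.Value
open MeasureTheory Set unitInterval
open scoped ENNReal

/-- RED's pure strategies `(a, A)`, the interval `[a, a + A] ⊆ [0,1]` -/
abbrev Red : Type := {c : ℝ × ℝ // 0 ≤ c.1 ∧ c.1 ≤ c.1 + c.2 ∧ c.1 + c.2 ≤ 1}

/-- payoff to RED -/
noncomputable def payoff (β : ℝ) (c : Red) (p : I) : ℝ :=
  if c.1.1 ≤ p ∧ p ≤ c.1.1 + c.1.2 then -β * c.1.2 else c.1.2

/-- expected payoff of a pair of mixed strategies -/
noncomputable def E (β : ℝ) (μ : ProbabilityMeasure Red) (ν : ProbabilityMeasure I) : ℝ :=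
  ∫ z, payoff β z.1 z.2 ∂(μ : Measure Red).prod ν

variable {β : ℝ} (hβ : 0 ≤ β)

lemma mset : MeasurableSet {z : Red × I | z.1.1.1 ≤ z.2 ∧ z.2 ≤ z.1.1.1 + z.1.1.2} :=
  MeasurableSet.inter (s₁ := {z : Red × I | z.1.1.1 ≤ z.2})
    (s₂ := {z : Red × I | z.2 ≤ z.1.1.1 + z.1.1.2})
    (measurableSet_le (by fun_prop) (by fun_prop)) (measurableSet_le (by fun_prop) (by fun_prop))

lemma meas : Measurable fun z : Red × I => payoff β z.1 z.2 :=
  Measurable.ite mset (by fun_prop) (by fun_prop)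

include hβ

lemma bnd (c : Red) (p : I) : payoff β c p ∈ Icc (-β) 1 := by
  obtain ⟨⟨a, A⟩, h1, h2, h3⟩ := c
  simp only [payoff] at *
  split_ifs <;> constructor <;> nlinarith

lemma intg {X : Type} [MeasurableSpace X] (P : Measure X) [IsFiniteMeasure P] {f : X → Red × I}
    (hf : Measurable f) : Integrable (fun x => payoff β (f x).1 (f x).2) P :=
  .of_mem_Icc _ _ (meas.comp hf).aemeasurable (.of_forall fun _ => bnd hβ _ _)

lemma E_mem (μ : ProbabilityMeasure Red) (ν : ProbabilityMeasure I) : E β μ ν ∈ Icc (-β) 1 := by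
  have h := intg hβ ((μ : Measure Red).prod ν) measurable_id
  constructor
  · simpa [E] using integral_mono (integrable_const (-β)) h fun z => (bnd hβ z.1 z.2).1
  · simpa [E] using integral_mono h (integrable_const 1) fun z => (bnd hβ z.1 z.2).2

lemma blue {M : ℝ} (h0 : 0 ≤ M) (hM : ∀ k : ℕ, k - 1 - β ≤ M * k ^ 2) :
    ∃ ν, ∀ μ, E β μ ν ≤ M := by
  set F : ℝ → ℝ := fun x => if 0 < x then ⨆ k : ℕ, (k - M * k ^ 2 / x) / (1 + β) else 0 with hF
  have h1 : ∀ x, 0 < x → x ≤ 1 → ∀ k : ℕ, (k - M * k ^ 2 / x) / (1 + β) ≤ 1 := fun x hx hx1 k => by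
    rw [div_le_one (by linarith)]
    have : M * k ^ 2 ≤ M * k ^ 2 / x := le_div_self (by positivity) hx hx1
    linarith [hM k]
  have h2 : ∀ x, 0 < x → x ≤ 1 → ∀ k : ℕ, (k - M * k ^ 2 / x) / (1 + β) ≤ F x := fun x hx hx1 k => by
    simp only [hF, if_pos hx]
    exact le_ciSup (f := fun k : ℕ => (k - M * k ^ 2 / x) / (1 + β))
      ⟨1, by rintro _ ⟨k, rfl⟩; exact h1 x hx hx1 k⟩ k
  have h3 : ∀ x, x ≤ 1 → 0 ≤ F x ∧ F x ≤ 1 := fun x hx1 => by
    by_cases hx : 0 < x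
    · exact ⟨by simpa using h2 x hx hx1 0, by simpa only [hF, if_pos hx] using ciSup_le (h1 x hx hx1)⟩
    · simp [hF, hx]
  have h4 : ∀ x a, x ≤ a → a ≤ 1 → F x ≤ F a := fun x a hxa ha => by
    by_cases hx : 0 < x
    · conv_lhs => simp only [hF, if_pos hx]
      refine ciSup_le fun k => le_trans ?_ (h2 a (by linarith) ha k)
      gcongr
    · simpa [hF, hx] using (h3 a ha).1
  have h5 : ∀ a A, 0 ≤ a → 0 < A → a + A ≤ 1 → F a + (1 - M / A) / (1 + β) ≤ F (a + A) := by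
    intro a A ha hA h
    rcases ha.eq_or_lt with rfl | ha
    · simpa [hF] using h2 A hA (by linarith) 1
    rw [← le_sub_iff_add_le]
    conv_lhs => simp only [hF, if_pos ha]
    refine ciSup_le fun k => ?_
    rw [le_sub_iff_add_le, ← add_div]
    refine le_trans ?_ (h2 (a + A) (by linarith) h (k + 1))
    have : ((k : ℝ) + 1) ^ 2 / (a + A) ≤ k ^ 2 / a + 1 / A := by
      rw [div_add_div _ _ ha.ne' hA.ne', div_le_div_iff₀ (by linarith) (by positivity)]
      nlinarith [sq_nonneg (k * A - a)]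
    have := mul_le_mul_of_nonneg_left this h0
    push_cast
    refine div_le_div_of_nonneg_right ?_ (by linarith)
    simp only [mul_div_assoc, mul_add, one_div, ← div_eq_mul_inv] at this ⊢
    linarith
  set q : ℝ → I := fun u => sInf {x : I | u ≤ F x}
  have hq : Measurable q :=
    Monotone.measurable fun u v huv => sInf_le_sInf fun x (hx : v ≤ F x) => huv.trans hx
  have : IsProbabilityMeasure (volume.restrict (Ioc (0 : ℝ) 1)) := ⟨by simp⟩
  have := Measure.isProbabilityMeasure_map (μ := volume.restrict (Ioc (0 : ℝ) 1)) hq.aemeasurable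
  refine ⟨⟨(volume.restrict (Ioc (0 : ℝ) 1)).map q, this⟩, fun μ => ?_⟩
  change ∫ z, payoff β z.1 z.2 ∂(μ : Measure Red).prod ((volume.restrict (Ioc (0 : ℝ) 1)).map q) ≤ M
  rw [integral_prod _ (intg hβ _ measurable_id')]
  refine le_trans (integral_mono (intg hβ _ measurable_id').integral_prod_left
    (integrable_const M) fun c => ?_) (by simp)
  obtain ⟨⟨a, A⟩, ha, hA, h⟩ := c
  simp only at ha hA h
  have hs : MeasurableSet {p : I | a ≤ p ∧ p ≤ a + A} := measurable_subtype_coe measurableSet_Icc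
  have e : ∀ p, payoff β ⟨(a, A), ha, hA, h⟩ p =
      A - {p : I | a ≤ p ∧ p ≤ a + A}.indicator (fun _ => (1 + β) * A) p := fun p => by
    simp only [payoff, indicator, mem_ofPred_eq]
    split_ifs <;> ring
  simp only [e]
  rw [integral_sub (integrable_const _) ((integrable_const _).indicator hs), integral_indicator hs]
  simp only [integral_const, probReal_univ, smul_eq_mul, one_mul, measureReal_restrict_apply_univ]
  rcases (show 0 ≤ A by linarith).eq_or_lt with rfl | hA'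
  · simpa using h0
  have h6 : F (a + A) - F a ≤ ((volume.restrict (Ioc (0 : ℝ) 1)).map q).real
      {p : I | a ≤ p ∧ p ≤ a + A} := by
    rw [map_measureReal_apply hq hs, measureReal_restrict_apply (hq hs)]
    refine le_trans (le_trans (le_max_left _ 0) (Real.volume_real_Ioc).ge)
      (measureReal_mono (fun u hu => ⟨⟨?_, ?_⟩, ?_, ?_⟩)
        (measure_ne_top_of_subset inter_subset_right (by simp)))
    · refine Subtype.coe_le_coe.2 (le_sInf (a := (⟨a, ha, by linarith⟩ : I)) fun x hx => ?_)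
      by_contra hlt
      exact absurd (le_trans hx (h4 x a (not_le.1 hlt).le (by linarith))) (not_le.2 hu.1)
    · exact Subtype.coe_le_coe.2 (sInf_le (a := (⟨a + A, by linarith, h⟩ : I)) hu.2)
    · exact (h3 a (by linarith)).1.trans_lt hu.1
    · exact hu.2.trans (h3 _ h).2
  have h7 : (1 - M / A) / (1 + β) * ((1 + β) * A) = A - M := by field_simp
  have := mul_le_mul_of_nonneg_right (((le_sub_iff_add_le').2 (h5 a A ha hA' h)).trans h6)
    (show 0 ≤ (1 + β) * A by positivity)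
  linarith

lemma red {n : ℕ} (hn : 1 ≤ n) {t : ℝ} (h0 : 0 ≤ t) (h1 : t < 1) :
    ∃ μ, ∀ ν, t * ((n - 1 - β) / n ^ 2) ≤ E β μ ν := by
  have hn' : (0 : ℝ) < n := by exact_mod_cast hn
  let c : Fin n → Red := fun i => ⟨((i : ℕ) / n, t / n), by positivity,
    le_add_of_nonneg_right (by positivity), by
      have : ((i : ℕ) : ℝ) + 1 ≤ n := by exact_mod_cast i.2
      rw [← add_div, div_le_one hn']; linarith⟩
  have : IsProbabilityMeasure ((n : ℝ≥0∞)⁻¹ • ∑ i, Measure.dirac (c i)) := ⟨by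
    simp [ENNReal.inv_mul_cancel (a := n) (by simp; omega)]⟩
  refine ⟨⟨_, this⟩, fun ν => ?_⟩
  change _ ≤ ∫ z, payoff β z.1 z.2 ∂((n : ℝ≥0∞)⁻¹ • ∑ i, Measure.dirac (c i)).prod (ν : Measure I)
  rw [integral_prod_symm _ (intg hβ _ measurable_id')]
  refine le_trans (by simp) (integral_mono (integrable_const (t * ((n - 1 - β) / n ^ 2)))
    (intg hβ _ measurable_id').integral_prod_right fun p => ?_)
  simp only [integral_smul_measure]
  rw [integral_finsetSum_measure fun i _ => intg hβ _ (f := fun x => (x, p)) (by fun_prop)]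
  have e : ∀ i, payoff β (c i) p = t / n - (1 + β) * (t / n) *
      if (c i).1.1 ≤ p ∧ p ≤ (c i).1.1 + (c i).1.2 then 1 else 0 := fun i => by
    simp only [payoff]
    split_ifs <;> simp only [c] <;> ring
  have h2 : ((Finset.univ.filter fun i => (c i).1.1 ≤ p ∧ p ≤ (c i).1.1 + (c i).1.2).card : ℝ) ≤ 1 := by
    have key : ∀ i j : Fin n, (c i).1.1 ≤ p → p ≤ (c j).1.1 + (c j).1.2 → i ≤ j := by
      intro i j hi hj
      have := hi.trans hj
      simp only [c, ← add_div, div_le_div_iff_of_pos_right hn'] at this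
      have : ((i : ℕ) : ℝ) < (j : ℕ) + 1 := by linarith
      exact Nat.lt_succ_iff.1 (by exact_mod_cast this)
    rw [Nat.cast_le_one, Finset.card_le_one]
    intro i hi j hj
    rw [Finset.mem_filter] at hi hj
    exact le_antisymm (key _ _ hi.2.1 hj.2.2) (key _ _ hj.2.1 hi.2.2)
  simp only [integral_dirac, e, Finset.sum_sub_distrib, ← Finset.mul_sum, Finset.sum_boole,
    Finset.sum_const, Finset.card_univ, Fintype.card_fin, nsmul_eq_mul, smul_eq_mul,
    ENNReal.toReal_inv, ENNReal.toReal_natCast]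
  have h3 := mul_le_mul_of_nonneg_left h2 (show 0 ≤ (1 + β) * (t / n) by positivity)
  calc t * ((n - 1 - β) / n ^ 2) = (n : ℝ)⁻¹ * (n * (t / n) - (1 + β) * (t / n) * 1) := by
        field_simp; ring
    _ ≤ _ := by gcongr

omit hβ in
theorem result : ∀ β : ℝ, 0 ≤ β →
    (⨆ μ, ⨅ ν, E β μ ν) = sSup {m | ∃ n : ℕ, 1 ≤ n ∧ m = (n - 1 - β) / n ^ 2} ∧
    (⨅ ν, ⨆ μ, E β μ ν) = sSup {m | ∃ n : ℕ, 1 ≤ n ∧ m = (n - 1 - β) / n ^ 2} := by
  intro β hβ
  set S := {m : ℝ | ∃ n : ℕ, 1 ≤ n ∧ m = (n - 1 - β) / n ^ 2}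
  have hb : BddAbove S := ⟨1, by
    rintro _ ⟨n, hn, rfl⟩
    have : (1 : ℝ) ≤ n := by exact_mod_cast hn
    rw [div_le_one (by positivity)]; nlinarith⟩
  have h0 : 0 ≤ sSup S := by
    obtain ⟨n, hn⟩ := exists_nat_ge (1 + β)
    exact le_trans (div_nonneg (by linarith) (by positivity))
      (le_csSup hb ⟨n, by exact_mod_cast (show (1 : ℝ) ≤ n by linarith), rfl⟩)
  obtain ⟨ν, hν⟩ := blue hβ h0 fun k => by
    rcases k.eq_zero_or_pos with rfl | hk
    · simp; linarith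
    · exact (div_le_iff₀ (by positivity)).1 (le_csSup hb ⟨k, hk, rfl⟩)
  have key : ∀ v, (∀ μ r, (∀ ν, r ≤ E β μ ν) → r ≤ v) → sSup S ≤ v := fun v hv => by
    refine csSup_le ⟨_, 1, le_rfl, rfl⟩ ?_
    rintro _ ⟨n, hn, rfl⟩
    have hc : Filter.Tendsto (fun t : ℝ => t * ((n - 1 - β) / n ^ 2)) (nhdsWithin 1 (Iio 1))
        (nhds (1 * ((n - 1 - β) / n ^ 2))) :=
      (continuous_mul_const _).continuousWithinAt
    rw [one_mul] at hc
    refine le_of_tendsto hc ?_
    filter_upwards [Ioo_mem_nhdsLT (show (0 : ℝ) < 1 by norm_num)] with t ht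
    obtain ⟨μ, hμ⟩ := red hβ hn ht.1.le ht.2
    exact hv μ _ hμ
  obtain ⟨μ0, -⟩ := red hβ le_rfl le_rfl one_pos
  have : Nonempty (ProbabilityMeasure Red) := ⟨μ0⟩
  have : Nonempty (ProbabilityMeasure I) := ⟨ν⟩
  have lo : ∀ μ, BddBelow (range (E β μ)) := fun μ =>
    ⟨-β, by rintro _ ⟨ν, rfl⟩; exact (E_mem hβ _ _).1⟩
  have up : ∀ ν, BddAbove (range fun μ => E β μ ν) := fun ν =>
    ⟨1, by rintro _ ⟨μ, rfl⟩; exact (E_mem hβ _ _).2⟩
  have l1 : ∀ μ, ⨅ ν, E β μ ν ≤ sSup S := fun μ => (ciInf_le (lo μ) ν).trans (hν μ)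
  refine ⟨le_antisymm (ciSup_le l1) (key _ fun μ r hr => ?_), le_antisymm ?_ ?_⟩
  · exact (le_ciInf hr).trans (le_ciSup (f := fun μ => ⨅ ν, E β μ ν)
      ⟨_, by rintro _ ⟨μ, rfl⟩; exact l1 μ⟩ μ)
  · refine le_trans (ciInf_le ⟨-β, ?_⟩ ν) (ciSup_le hν)
    rintro _ ⟨ν, rfl⟩
    exact (E_mem hβ μ0 ν).1.trans (le_ciSup (up ν) μ0)
  · exact le_ciInf fun ν => key _ fun μ r hr => (hr ν).trans (le_ciSup (up ν) μ)

end Pool.Agent.Results.MP_d7d923_pr.Value
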